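import Pool.Agent.K1H79.GE.StmB
import Pool.Agent.K1H79.QR.Sep

/-! # W8: the counting inequality, primes which split in `L/F` -/

set_option autoImplicit false
set_option linter.unusedSectionVars false
set_option linter.unusedVariables false

namespace Pool.Agent.K1H21.GE

open NumberField Finset IntermediateField Pool.Agent.TH847.LG Pool.Agent.TH847.LS
open Pool.Agent.K1H79.QR Pool.Agent.K1H79.GE
open scoped Classical nonZeroDivisors

variable {F L : Type} [Field F] [NumberField F] [Field L] [NumberField L] [Algebra F L]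
variable {S : Set ℕ} {f f' : ℕ → Ideal (𝓞 L)}

/-- an element of `F` as a fraction which is not `0/0` modulo `𝔮` -/
theorem frac (𝔮 : Ideal (𝓞 F)) (hq : 𝔮.IsPrime) (h0 : 𝔮 ≠ ⊥) (b : F) :
    ∃ u v : 𝓞 F, b * (v : F) = (u : F) ∧ ¬ (u ∈ 𝔮 ∧ v ∈ 𝔮) := by
  obtain ⟨n, d, h⟩ := IsDedekindDomain.HeightOneSpectrum.exists_primeCompl_mul_eq_or_mul_eq
    (K := F) (⟨𝔮, hq, h0⟩ : IsDedekindDomain.HeightOneSpectrum (𝓞 F)) b
  rcases h with h | h
  · exact ⟨n, d, h, fun h2 => d.2 h2.2⟩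
  · exact ⟨d, n, h, fun h2 => d.2 h2.1⟩

theorem sub_of_mem (hS : ∀ p ∈ S, Pr p (f p) (f' p))
    (hc : ∀ p ∈ S, Ideal.comap (algebraMap (𝓞 F) (𝓞 L)) (f p) =
      Ideal.comap (algebraMap (𝓞 F) (𝓞 L)) (f' p))
    {m m' : ℕ} (hm : ∀ p ∈ m.primeFactors, p ∈ S)
    (hm' : ∀ p ∈ m'.primeFactors, p ∈ S) {l : ℕ} (hl : 1 ≤ l) {x y : 𝓞 L} (hx : x ≠ 0)
    (h : Ideal.span {x} * PP f m ^ l = Ideal.span {y} * PP f m' ^ l) {b : F}
    (hb : algebraMap F L b * (x : L) = (y : L)) :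
    m.primeFactors ⊆ m'.primeFactors := by
  intro p hp
  by_contra hcon
  obtain ⟨h1, h2, h3, h4, h5, h6⟩ := hS p (hm p hp)
  have hcp := hc p (hm p hp)
  set 𝔮 : Ideal (𝓞 F) := Ideal.comap (algebraMap (𝓞 F) (𝓞 L)) (f p) with h𝔮
  have hqp : 𝔮.IsPrime := Ideal.comap_isPrime _ _
  have hpq : ((p : ℕ) : 𝓞 F) ∈ 𝔮 := by
    rw [h𝔮, Ideal.mem_comap, map_natCast]
    exact h4
  obtain ⟨u, v, huv, hnot⟩ := frac 𝔮 hqp (prime_ne_bot h1 hpq) b
  -- the identity of ideals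
  have hyx : y * algebraMap (𝓞 F) (𝓞 L) v = x * algebraMap (𝓞 F) (𝓞 L) u := by
    refine RingOfIntegers.ext ?_
    have e1 : ((algebraMap (𝓞 F) (𝓞 L) v : 𝓞 L) : L) = algebraMap F L (v : F) := rfl
    have e2 : ((algebraMap (𝓞 F) (𝓞 L) u : 𝓞 L) : L) = algebraMap F L (u : F) := rfl
    show (y : L) * ((algebraMap (𝓞 F) (𝓞 L) v : 𝓞 L) : L) =
      (x : L) * ((algebraMap (𝓞 F) (𝓞 L) u : 𝓞 L) : L)
    rw [e1, e2, ← huv, ← hb, map_mul]
    ring
  have hx0 : Ideal.span {x} ≠ 0 := by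
    rw [Ne, Ideal.zero_eq_bot, Ideal.span_singleton_eq_bot]
    exact hx
  have key : Ideal.span {algebraMap (𝓞 F) (𝓞 L) v} * PP f m ^ l =
      Ideal.span {algebraMap (𝓞 F) (𝓞 L) u} * PP f m' ^ l := by
    apply mul_left_cancel₀ hx0
    calc Ideal.span {x} * (Ideal.span {algebraMap (𝓞 F) (𝓞 L) v} * PP f m ^ l)
        = Ideal.span {algebraMap (𝓞 F) (𝓞 L) v} * (Ideal.span {x} * PP f m ^ l) := by ring
      _ = Ideal.span {algebraMap (𝓞 F) (𝓞 L) v} * (Ideal.span {y} * PP f m' ^ l) := by rw [h]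
      _ = (Ideal.span {y} * Ideal.span {algebraMap (𝓞 F) (𝓞 L) v}) * PP f m' ^ l := by ring
      _ = Ideal.span {x * algebraMap (𝓞 F) (𝓞 L) u} * PP f m' ^ l := by
        rw [Ideal.span_singleton_mul_span_singleton, hyx]
      _ = _ := by rw [← Ideal.span_singleton_mul_span_singleton, mul_assoc]
  have hnot2 : ∀ 𝔓 : Ideal (𝓞 L), 𝔓.IsPrime → ((p : ℕ) : 𝓞 L) ∈ 𝔓 →
      Ideal.span {algebraMap (𝓞 F) (𝓞 L) u} * PP f m' ^ l ≤ 𝔓 → algebraMap (𝓞 F) (𝓞 L) u ∈ 𝔓 := by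
    intro 𝔓 hq hpq hle
    rcases hq.mul_le.1 hle with h7 | h7
    · exact h7 (Ideal.mem_span_singleton_self _)
    · exact absurd (PP_le hS hm' h1 hq hpq (hq.le_of_pow_le h7)).1 hcon
  have mem1 : ∀ z : 𝓞 F, algebraMap (𝓞 F) (𝓞 L) z ∈ f p → z ∈ 𝔮 := fun z hz => hz
  have mem2 : ∀ z : 𝓞 F, algebraMap (𝓞 F) (𝓞 L) z ∈ f' p → z ∈ 𝔮 := by
    intro z hz
    rw [hcp]
    exact hz
  have mem2' : ∀ z : 𝓞 F, z ∈ 𝔮 → algebraMap (𝓞 F) (𝓞 L) z ∈ f' p := by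
    intro z hz
    rw [hcp] at hz
    exact hz
  by_cases hv : v ∈ 𝔮
  · refine hnot ⟨mem2 u (hnot2 (f' p) h3 h5 ?_), hv⟩
    rw [← key]
    refine Ideal.mul_le_left.trans ?_
    rw [Ideal.span_le, Set.singleton_subset_iff]
    exact mem2' v hv
  · have h7 : u ∈ 𝔮 := by
      refine mem1 u (hnot2 (f p) h2 h4 ?_)
      rw [← key]
      refine Ideal.mul_le_right.trans ((Ideal.pow_le_self (Nat.one_le_iff_ne_zero.1 hl)).trans ?_)
      exact h2.prod_le.2 ⟨p, hp, le_rfl⟩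
    have h8 : Ideal.span {algebraMap (𝓞 F) (𝓞 L) v} * PP f m ^ l ≤ f' p := by
      rw [key]
      refine Ideal.mul_le_left.trans ?_
      rw [Ideal.span_le, Set.singleton_subset_iff]
      exact mem2' u h7
    rcases h3.mul_le.1 h8 with h9 | h9
    · exact hv (mem2 v (h9 (Ideal.mem_span_singleton_self _)))
    · exact h6 (PP_le hS hm h1 h3 h5 (h3.le_of_pow_le h9)).2

/-- `m` lies in the product of the chosen primes -/
theorem mem_PP (hS : ∀ p ∈ S, Pr p (f p) (f' p)) {m : ℕ} (hm : ∀ p ∈ m.primeFactors, p ∈ S)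
    (hsq : Squarefree m) : ((m : ℕ) : 𝓞 L) ∈ PP f m := by
  unfold PP
  have h : ((m : ℕ) : 𝓞 L) = ∏ p ∈ m.primeFactors, ((p : ℕ) : 𝓞 L) := by
    rw [← Nat.cast_prod, Nat.prod_primeFactors_of_squarefree hsq]
  rw [h]
  exact Ideal.prod_mem_prod fun p hp => (hS p (hm p hp)).2.2.2.1

theorem t_CN : S_CN := by
  intro n hn1
  refine ⟨150 ^ 3, by norm_num, ?_⟩
  intro F L _ _ _ _ _ hn X hX hSmall M hM N hN
  have hex : ∀ p : ℕ, ∃ Q Q' : Ideal (𝓞 L), SpN F L p → Pr p Q Q' ∧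
      Ideal.comap (algebraMap (𝓞 F) (𝓞 L)) Q = Ideal.comap (algebraMap (𝓞 F) (𝓞 L)) Q' := by
    intro p
    by_cases h : SpN F L p
    · obtain ⟨hp, Q, Q', hQ, hQ', hne, hpQ, hc⟩ := h
      refine ⟨Q, Q', fun _ => ⟨⟨hp, hQ, hQ', hpQ, ?_, hne⟩, hc⟩⟩
      have h1 : ((p : ℕ) : 𝓞 F) ∈ Ideal.comap (algebraMap (𝓞 F) (𝓞 L)) Q := by
        rw [Ideal.mem_comap, map_natCast]
        exact hpQ
      rw [hc, Ideal.mem_comap, map_natCast] at h1
      exact h1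
    · exact ⟨⊥, ⊥, fun h' => absurd h' h⟩
  choose f f' hff using hex
  obtain ⟨S, hSdef⟩ : ∃ S : Set ℕ, S = {p | SpN F L p} := ⟨_, rfl⟩
  have hS : ∀ p ∈ S, Pr p (f p) (f' p) := by
    intro p hp
    rw [hSdef] at hp
    exact (hff p hp).1
  have hc : ∀ p ∈ S, Ideal.comap (algebraMap (𝓞 F) (𝓞 L)) (f p) =
      Ideal.comap (algebraMap (𝓞 F) (𝓞 L)) (f' p) := by
    intro p hp
    rw [hSdef] at hp
    exact (hff p hp).2
  have hSn : ∀ p ∈ S, Ideal.absNorm (f p) ≤ p ^ n := by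
    intro p hp
    obtain ⟨h1, h2, h3, h4, h5, h6⟩ := hS p hp
    have h7 : Ideal.absNorm (f p) ∣ Ideal.absNorm (Ideal.span {((p : ℕ) : 𝓞 L)}) := by
      apply Ideal.absNorm_dvd_absNorm_of_le
      rw [Ideal.span_le, Set.singleton_subset_iff]
      exact h4
    rw [Ideal.absNorm_span_natCast, RingOfIntegers.rank, hn] at h7
    exact Nat.le_of_dvd (pow_pos h1.pos _) h7
  have hMS : ∀ m ∈ M, ∀ p ∈ m.primeFactors, p ∈ S := by
    intro m hm p hp
    rw [hSdef]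
    exact (hM m hm).2.2 p (Nat.prime_of_mem_primeFactors hp) (Nat.dvd_of_mem_primeFactors hp)
  have hn0 : (0 : ℝ) < n := by exact_mod_cast hn1
  have h1 := ev_g hn (l := 3) (by norm_num) N hN (ι := {m // m ∈ M})
    (fun m => ⟨PP f m.1, PP_ne hS (hMS m.1 m.2)⟩) (by
    intro p q hpq x y hx hy hxy hw
    simp only at hxy hw
    have hxL : (x : L) ≠ 0 := by exact_mod_cast hx
    have hyL : (y : L) ≠ 0 := by exact_mod_cast hy
    have hq0 : (q.1 : ℕ) ≠ 0 := (hM q.1 q.2).1.ne_zero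
    -- the quotient becomes integral
    have hmem : ((q.1 : ℕ) : 𝓞 L) ^ 3 ∈ PP f q.1 ^ 3 :=
      Ideal.pow_mem_pow (mem_PP hS (hMS q.1 q.2) (hM q.1 q.2).1) 3
    have h2 : y * ((q.1 : ℕ) : 𝓞 L) ^ 3 ∈ Ideal.span {y} * PP f q.1 ^ 3 :=
      Ideal.mul_mem_mul (Ideal.mem_span_singleton_self _) hmem
    rw [← hxy] at h2
    obtain ⟨d, hd⟩ := Ideal.mem_span_singleton'.1 (Ideal.mul_le_left h2)
    have hdL : (d : L) * (x : L) = (y : L) * ((q.1 : ℕ) : L) ^ 3 := by exact_mod_cast congrArg (fun z : 𝓞 L => (z : L)) hd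
    have hq0L : ((q.1 : ℕ) : L) ≠ 0 := by exact_mod_cast hq0
    -- sizes
    have hP := norm_PP hS hSn (hMS p.1 p.2) (hM p.1 p.2).1
    have hPX : ((Ideal.absNorm (PP f p.1) : ℕ) : ℝ) ≤ X ^ n := by
      calc ((Ideal.absNorm (PP f p.1) : ℕ) : ℝ) ≤ ((p.1 ^ n : ℕ) : ℝ) := by exact_mod_cast hP
        _ = (p.1 : ℝ) ^ n := by push_cast; rfl
        _ ≤ X ^ n := by
          gcongr
          exact (hM p.1 p.2).2.1
    have hQ1 : (1 : ℝ) ≤ ((Ideal.absNorm (PP f q.1) : ℕ) : ℝ) := by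
      have h3 : Ideal.absNorm (PP f q.1) ≠ 0 := by
        rw [Ne, Ideal.absNorm_eq_zero_iff]
        exact nonZeroDivisors.coe_ne_zero ⟨PP f q.1, PP_ne hS (hMS q.1 q.2)⟩
      exact_mod_cast Nat.one_le_iff_ne_zero.2 h3
    have hrat : ((Ideal.absNorm (PP f p.1) : ℝ) / Ideal.absNorm (PP f q.1)) ^ ((((3 : ℕ) : ℝ)) / n) ≤ X ^ 3 := by
      have h4 : (Ideal.absNorm (PP f p.1) : ℝ) / Ideal.absNorm (PP f q.1) ≤ X ^ n :=
        (div_le_self (Nat.cast_nonneg _) hQ1).trans hPX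
      calc ((Ideal.absNorm (PP f p.1) : ℝ) / Ideal.absNorm (PP f q.1)) ^ ((((3 : ℕ) : ℝ)) / n)
          ≤ (X ^ n) ^ ((((3 : ℕ) : ℝ)) / n) :=
            Real.rpow_le_rpow (by positivity) h4 (by positivity)
        _ = X ^ 3 := by
          rw [← Real.rpow_natCast X n, ← Real.rpow_mul (by linarith), mul_div_cancel₀ _ hn0.ne',
            Real.rpow_natCast]
    have hwn : ∀ (w : InfinitePlace L) (k : ℕ), w ((k : ℕ) : L) = (k : ℝ) := by
      intro w k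
      rw [← InfinitePlace.norm_embedding_eq, map_natCast, Complex.norm_natCast]
    have hdw : ∀ w : InfinitePlace L, w (d : L) ≤ (150 : ℝ) ^ 3 * X ^ ((150 : ℝ) ^ 3) := by
      intro w
      have hwx : 0 < w (x : L) := InfinitePlace.pos_iff.2 hxL
      have h5 : w (d : L) * w (x : L) = w (y : L) * (q.1 : ℝ) ^ 3 := by
        rw [← map_mul, hdL, map_mul, map_pow, hwn]
      have hqX : (q.1 : ℝ) ^ 3 ≤ X ^ 3 := by
        gcongr
        exact (hM q.1 q.2).2.1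
      have h6 : w (y : L) ≤ 150 ^ 3 * X ^ 3 * w (x : L) := by
        refine (hw w).trans ?_
        gcongr
      have h7 : w (d : L) * w (x : L) ≤ (150 ^ 3 * X ^ 6) * w (x : L) := by
        rw [h5]
        calc w (y : L) * (q.1 : ℝ) ^ 3 ≤ (150 ^ 3 * X ^ 3 * w (x : L)) * X ^ 3 := by
              gcongr
          _ = (150 ^ 3 * X ^ 6) * w (x : L) := by ring
      have h8 : w (d : L) ≤ 150 ^ 3 * X ^ 6 := le_of_mul_le_mul_right h7 hwx
      refine h8.trans ?_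
      refine mul_le_mul_of_nonneg_left ?_ (by norm_num)
      rw [← Real.rpow_natCast X 6]
      exact Real.rpow_le_rpow_of_exponent_le hX (by norm_num)
    obtain ⟨z, hz⟩ := hSmall (d : L) (RingOfIntegers.isIntegral_coe d) hdw
    -- the quotient is in `F`
    have hmapq : algebraMap F L ((q.1 : ℕ) : F) = ((q.1 : ℕ) : L) := map_natCast _ _
    have hb : algebraMap F L (z / ((q.1 : ℕ) : F) ^ 3) * (x : L) = (y : L) := by
      rw [map_div₀, map_pow, hmapq, hz, div_mul_eq_mul_div, hdL, mul_div_assoc, div_self (pow_ne_zero _ hq0L),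
        mul_one]
    have hb' : algebraMap F L (z / ((q.1 : ℕ) : F) ^ 3)⁻¹ * (y : L) = (x : L) := by
      rw [← hb, map_inv₀, ← mul_assoc, inv_mul_cancel₀, one_mul]
      intro h0
      rw [h0, zero_mul] at hb
      exact hyL hb.symm
    have s1 := sub_of_mem hS hc (hMS p.1 p.2) (hMS q.1 q.2) (l := 3) (by norm_num) hx hxy hb
    have s2 := sub_of_mem hS hc (hMS q.1 q.2) (hMS p.1 p.2) (l := 3) (by norm_num) hy hxy.symm hb'
    apply hpq
    apply Subtype.ext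
    rw [← Nat.prod_primeFactors_of_squarefree (hM p.1 p.2).1,
      ← Nat.prod_primeFactors_of_squarefree (hM q.1 q.2).1, Finset.Subset.antisymm s1 s2])
  rw [Fintype.card_coe] at h1
  exact h1

end Pool.Agent.K1H21.GE
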